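import Pool.Agent.FS.StrictGap.Fin

namespace Pool.Agent.Lib.MP_bd7e44_co.Variants.StrictGap

open Pool.Agent.FS.LightPairs Pool.Agent.FS.StrictGap

/-- Let a finite poset have no induced `3 + 1`, no induced `V + 2` (a point below two incomparable
points, next to a two-element chain) and no induced dual of `V + 2`; every semiorder is of this
kind. If there are incomparable `a, b` such that the number of elements incomparable to `a` and
the number of elements incomparable to `b` do not add up to three (that is, the poset is not an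
ordinal sum of points and copies of the three-element poset with one relation), then for some
distinct `x, y` the fraction of linear extensions placing `x` above `y` lies strictly between one
third and two thirds. -/
theorem result :
    ∀ (X : Type) [Fintype X] [PartialOrder X],
      (∀ a c z v : X, a < c → c < z → ¬ (Inc v a ∧ Inc v c ∧ Inc v z)) →
      (∀ b s t c z : X, ((b < s ∧ b < t) ∨ (s < b ∧ t < b)) → Inc s t → c < z →
        ¬ (Inc b c ∧ Inc b z ∧ Inc s c ∧ Inc s z ∧ Inc t c ∧ Inc t z)) →
      (∃ a b : X, Inc a b ∧ {z : X | Inc a z}.ncard + {z : X | Inc b z}.ncard ≠ 3) →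
      ∃ x y : X, x ≠ y ∧
        (1 / 3 : ℝ) <
          (({f : X ≃ Fin (Fintype.card X) | StrictMono (⇑f) ∧ f y < f x}.ncard : ℕ) : ℝ) /
            (({f : X ≃ Fin (Fintype.card X) | StrictMono (⇑f)}.ncard : ℕ) : ℝ) ∧
        (({f : X ≃ Fin (Fintype.card X) | StrictMono (⇑f) ∧ f y < f x}.ncard : ℕ) : ℝ) /
            (({f : X ≃ Fin (Fintype.card X) | StrictMono (⇑f)}.ncard : ℕ) : ℝ) < (2 / 3 : ℝ) := by
  rintro X _ _ h31 hV ⟨a, b, i, hd⟩
  have he := e_pos X
  by_contra hc
  have hM := wmaj (Y := Fin (Fintype.card X)) (rich X) (rich_dual X) he fun x y hxy => by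
    by_contra hh
    push Not at hh
    have hp : (0 : ℝ) < e X (Fin (Fintype.card X)) := by exact_mod_cast he
    have a1 : (e X (Fin (Fintype.card X)) : ℝ) < 3 * N (Fin (Fintype.card X)) x y := by
      exact_mod_cast hh.1
    have a2 : (3 * N (Fin (Fintype.card X)) x y : ℝ) < 2 * e X (Fin (Fintype.card X)) := by
      exact_mod_cast hh.2
    refine hc ⟨y, x, hxy.symm, ?_, ?_⟩
    · change (1 / 3 : ℝ) < (N (Fin (Fintype.card X)) x y : ℝ) / e X (Fin (Fintype.card X))
      rw [lt_div_iff₀ hp]
      linarith
    · change (N (Fin (Fintype.card X)) x y : ℝ) / e X (Fin (Fintype.card X)) < (2 / 3 : ℝ)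
      rw [div_lt_iff₀ hp]
      linarith
  exact hd (deg hM ⟨h31, fun b s t c z h1 h2 => hV b s t c z (Or.inl ⟨h1, h2⟩),
    fun b s t c z h1 h2 => hV b s t c z (Or.inr ⟨h1, h2⟩)⟩ i)

end Pool.Agent.Lib.MP_bd7e44_co.Variants.StrictGap
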